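import Pool.Agent.Work.MP_2738db_nt_X.Interface
import Pool.Agent.Work.MP_2738db_nt_Z_helper49.SUP

/-!
Block SUX (helper79): primes `1` modulo `d` up to a fixed power of `d`, two-sided, all `d`.
-/

set_option autoImplicit false

namespace Pool.Agent.Work.MP_2738db_nt_X.helper79

open Finset ArithmeticFunction
open Pool.Agent.PS
open Pool.Agent.Work.MP_2738db_nt_Z (PR)
open Pool.Agent.Work.MP_2738db_nt_Z.helper49
open scoped Classical

/-- the sum over the characters modulo `d` of the exceptional term -/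
theorem sum_exc {Z : ℕ} {y : Ch} (hy : y ∈ Fam Z) {d : ℕ} (hd : 0 < d) (h : y.1 ∣ d) (M : ℝ) :
    ∑ χ : DirichletCharacter ℂ d, (if pr χ = y then M else 0) = M := by
  have : NeZero d := ⟨hd.ne'⟩
  have h1 := pr_eq_iff (DirichletCharacter.changeLevel h y.2) y (isPrimitive_of_mem_Fam hy).1
  have h2 : pr (DirichletCharacter.changeLevel h y.2) = y := h1.2 ⟨h, rfl⟩
  rw [sum_eq_single (DirichletCharacter.changeLevel h y.2)]
  · rw [if_pos h2]
  · intro χ _ hχ
    rw [if_neg]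
    intro h3
    exact hχ (Pool.Agent.PS.pr_injective d (h3.trans h2.symm))
  · intro h3
    exact absurd (mem_univ _) h3

/-- the sum over the characters, with a real main term from the zeros -/
theorem core2 {Z : ℕ} (d : ℕ) (hd : 0 < d) (hdZ : d ≤ Z) (Y : ℝ)
    (hY : 1 ≤ Y) (E : ℝ)
    (hEF : ∀ x ∈ Fam Z, 
      ‖∑ n ∈ Ioc ⌊(1 : ℝ)⌋₊ ⌊Y⌋₊, (Λ n : ℂ) * x.2 (n : ZMod x.1)
          - (if x.2 = 1 then ((Y - 1 : ℝ) : ℂ) else 0)
          + ((zl x Z).map fun ρ => Complex.exp (ρ ^ 2 / (2 * Z)) *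
              (((Y : ℂ) ^ ρ - (((1 : ℝ) : ℂ)) ^ ρ) / ρ)).sum‖ ≤ E)
    (G R : Ch → ℝ) (hG : ∀ x, 0 ≤ G x) (s : ℝ) (hGs : ∑ x ∈ Fam Z, G x ≤ s)
    (hGx : ∀ x ∈ Fam Z, x.1 ∣ d → 
      ‖((zl x Z).map fun ρ => Complex.exp (ρ ^ 2 / (2 * Z)) *
              (((Y : ℂ) ^ ρ - (((1 : ℝ) : ℂ)) ^ ρ) / ρ)).sum - ((R x : ℝ) : ℂ)‖ ≤ 5 * Y * G x) :
    |d.totient * ∑ n ∈ (Ioc 1 ⌊Y⌋₊).filter (fun n => n % d = 1 % d), Λ n
      - ((Y - 1) - ∑ χ : DirichletCharacter ℂ d, R (pr χ))| ≤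
      5 * Y * s + d.totient * (E + Real.log d * Real.log ⌊Y⌋₊ / Real.log 2) := by
  have : NeZero d := ⟨hd.ne'⟩
  set N := ⌊Y⌋₊ with hN
  set B := Real.log d * Real.log N / Real.log 2 with hB
  have h1 := congrArg Complex.re (psi_ap d hd (Ioc 1 N))
  have h2 : ((d.totient : ℂ) * ∑ n ∈ (Ioc 1 N).filter (fun n => n % d = 1 % d), (Λ n : ℂ)).re
      = d.totient * ∑ n ∈ (Ioc 1 N).filter (fun n => n % d = 1 % d), Λ n := by
    rw [← Complex.ofReal_sum, ← Complex.ofReal_natCast, ← Complex.ofReal_mul, Complex.ofReal_re]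
  rw [h2, Complex.re_sum] at h1
  rw [← h1]
  have h3 : ∀ χ : DirichletCharacter ℂ d,
      |(∑ n ∈ Ioc 1 N, (Λ n : ℂ) * χ (n : ZMod d)).re
        - ((if χ = 1 then Y - 1 else 0) - R (pr χ))| ≤ 5 * Y * G (pr χ) + (E + B) := by
    intro χ
    have hx : pr χ ∈ Fam Z := pr_mem hd hdZ χ
    have e1 := hEF (pr χ) hx
    rw [Nat.floor_one] at e1
    have e2 := chi_pr d N hd χ
    have e3 := hGx (pr χ) hx χ.conductor_dvd_level
    set S := ∑ n ∈ Ioc 1 N, (Λ n : ℂ) * χ (n : ZMod d)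
    set S' := ∑ n ∈ Ioc 1 N, (Λ n : ℂ) * (pr χ).2 (n : ZMod (pr χ).1)
    set U := ((zl (pr χ) Z).map fun ρ => Complex.exp (ρ ^ 2 / (2 * Z)) *
        (((Y : ℂ) ^ ρ - (((1 : ℝ) : ℂ)) ^ ρ) / ρ)).sum
    have a1 : |(S - S').re| ≤ B := (Complex.abs_re_le_norm _).trans e2
    have a2 := (Complex.abs_re_le_norm _).trans e3
    have a3 := (Complex.abs_re_le_norm _).trans e1
    have a4 : (if χ = 1 then Y - 1 else 0)
        = (if (pr χ).2 = 1 then ((Y - 1 : ℝ) : ℂ) else 0).re := by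
      by_cases hc : χ = 1
      · subst hc
        rw [if_pos rfl, if_pos (pr_one_eq d hd), Complex.ofReal_re]
      · rw [if_neg hc, if_neg, Complex.zero_re]
        intro h4
        apply hc
        have h5 := changeLevel_pr χ
        rw [h4, map_one] at h5
        exact h5.symm
    rw [a4]
    rw [Complex.sub_re] at a1 a2
    rw [Complex.ofReal_re] at a2
    rw [Complex.add_re, Complex.sub_re] at a3
    rw [abs_le] at a1 a2 a3 ⊢
    constructor
    · linarith [a1.1, a2.1, a2.2, a3.1]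
    · linarith [a1.2, a2.1, a2.2, a3.2]
  have h4 : (Y - 1) - ∑ χ : DirichletCharacter ℂ d, R (pr χ)
      = ∑ χ : DirichletCharacter ℂ d, ((if χ = 1 then Y - 1 else 0) - R (pr χ)) := by
    rw [sum_sub_distrib, sum_ite_eq' univ (1 : DirichletCharacter ℂ d), if_pos (mem_univ _)]
  rw [h4, ← sum_sub_distrib]
  refine (abs_sum_le_sum_abs _ _).trans ?_
  refine (sum_le_sum fun χ _ => h3 χ).trans ?_
  rw [sum_add_distrib, ← mul_sum, sum_const, card_univ, Fintype.card_eq_nat_card,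
    DirichletCharacter.card_eq_totient_of_hasEnoughRootsOfUnity ℂ d, nsmul_eq_mul]
  have h5 := (sum_pr_le hd hdZ G hG).trans hGs
  have h6 : 5 * Y * ∑ χ : DirichletCharacter ℂ d, G (pr χ) ≤ 5 * Y * s := by gcongr
  linarith

/-- from `Λ` to primes, upper bound -/
theorem card_le (d : ℕ) (t : ℝ) (ht : 1 ≤ t) :
    (PR t d).card * t ≤ t * Real.exp (t / 2) +
      2 * ∑ n ∈ (Ioc 1 ⌊Real.exp t⌋₊).filter (fun n => n % d = 1 % d), Λ n := by
  set N := ⌊Real.exp t⌋₊ with hN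
  rw [← card_filter_add_card_filter_not (s := PR t d)
    (fun q : ℕ => (q : ℝ) ≤ Real.exp (t / 2))]
  have h1 : (((PR t d).filter (fun q : ℕ => (q : ℝ) ≤ Real.exp (t / 2))).card : ℝ)
      ≤ Real.exp (t / 2) := by
    have h2 : (PR t d).filter (fun q : ℕ => (q : ℝ) ≤ Real.exp (t / 2))
        ⊆ Ioc 0 ⌊Real.exp (t / 2)⌋₊ := by
      intro q hq
      rw [mem_filter] at hq
      unfold PR at hq
      rw [mem_filter] at hq
      rw [mem_Ioc]
      exact ⟨hq.1.2.1.pos, Nat.le_floor hq.2⟩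
    have h3 := card_le_card h2
    rw [Nat.card_Ioc, Nat.sub_zero] at h3
    exact (Nat.cast_le.2 h3).trans (Nat.floor_le (Real.exp_pos _).le)
  have h2 : (((PR t d).filter (fun q : ℕ => ¬ (q : ℝ) ≤ Real.exp (t / 2))).card : ℝ) * (t / 2)
      ≤ ∑ n ∈ (Ioc 1 N).filter (fun n => n % d = 1 % d), Λ n := by
    rw [← nsmul_eq_mul]
    have h3 : ((PR t d).filter (fun q : ℕ => ¬ (q : ℝ) ≤ Real.exp (t / 2))).card • (t / 2)
        ≤ ∑ n ∈ (PR t d).filter (fun q : ℕ => ¬ (q : ℝ) ≤ Real.exp (t / 2)), Λ n := by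
      refine card_nsmul_le_sum _ _ _ fun n hn => ?_
      rw [mem_filter] at hn
      unfold PR at hn
      rw [mem_filter] at hn
      rw [vonMangoldt_apply_prime hn.1.2.1]
      rw [← Real.log_exp (t / 2)]
      exact Real.log_le_log (Real.exp_pos _) (not_le.1 hn.2).le
    refine h3.trans (sum_le_sum_of_subset_of_nonneg ?_ fun n _ _ => vonMangoldt_nonneg)
    intro n hn
    rw [mem_filter] at hn
    unfold PR at hn
    rw [mem_filter, mem_range] at hn
    rw [mem_filter, mem_Ioc]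
    exact ⟨⟨hn.1.2.1.one_lt, by omega⟩, hn.1.2.2⟩
  push_cast
  have h3 : (((PR t d).filter (fun q : ℕ => (q : ℝ) ≤ Real.exp (t / 2))).card : ℝ) * t
      ≤ Real.exp (t / 2) * t := by gcongr
  linarith

/-- the main term in the exceptional case -/
theorem exc_main (Z : ℕ) (t δ : ℝ) (hZ : 1 ≤ Z) (ht : 0 < t) (hδ : 0 < δ) (hδ1 : δ ≤ 1 / 10) :
    let M := Real.exp ((1 - δ) ^ 2 / (2 * Z)) * (((Real.exp t) ^ (1 - δ) - 1) / (1 - δ))
    (Real.exp t - 1) - M ≤ Real.exp t * min 1 (δ * t) ∧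
    Real.exp t * (min 1 (δ * t) / 2 - (2 * δ + 2 / Z + 1 / Real.exp t)) ≤ (Real.exp t - 1) - M := by
  intro M
  have hZr : (1 : ℝ) ≤ Z := by exact_mod_cast hZ
  set Y := Real.exp t with hY
  have hY0 : 0 < Y := Real.exp_pos t
  have hY1 : 1 ≤ Y := Real.one_le_exp ht.le
  have hβ : 0 < 1 - δ := by linarith
  set P := Y ^ (1 - δ) with hP
  have hP1 : 1 ≤ P := Real.one_le_rpow hY1 hβ.le
  have hPY : P = Y * Real.exp (-(δ * t)) := by
    rw [hP, hY, ← Real.exp_mul, ← Real.exp_add]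
    congr 1
    ring
  have hexp0 : 0 < Real.exp (-(δ * t)) := Real.exp_pos _
  have hexp1 : Real.exp (-(δ * t)) ≤ 1 := Real.exp_le_one_iff.2 (by nlinarith)
  have hPle : P ≤ Y := by rw [hPY]; nlinarith
  -- the exponential factor
  have hx0 : 0 ≤ (1 - δ) ^ 2 / (2 * (Z : ℝ)) := by positivity
  have hx1 : (1 - δ) ^ 2 / (2 * (Z : ℝ)) ≤ 1 / (2 * Z) := by
    gcongr
    nlinarith
  have hx2 : 1 / (2 * (Z : ℝ)) ≤ 1 / 2 := by
    rw [div_le_div_iff₀ (by positivity) (by norm_num)]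
    linarith
  have hw1 : 1 ≤ Real.exp ((1 - δ) ^ 2 / (2 * Z)) := Real.one_le_exp hx0
  have hw2 : Real.exp ((1 - δ) ^ 2 / (2 * Z)) ≤ 1 + 1 / Z := by
    refine (Real.exp_le_exp.2 hx1).trans ?_
    have h1 := Real.abs_exp_sub_one_sub_id_le (x := 1 / (2 * (Z : ℝ)))
      (by rw [abs_of_nonneg (by positivity)]; linarith)
    have h2 := (abs_le.1 h1).2
    have h3 : (1 / (2 * (Z : ℝ))) ^ 2 ≤ 1 / (2 * (Z : ℝ)) := by
      have : 0 ≤ 1 / (2 * (Z : ℝ)) := by positivity
      nlinarith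
    have h4 : 1 / (Z : ℝ) = 1 / (2 * Z) + 1 / (2 * Z) := by field_simp; norm_num
    linarith
  have hv1 : P - 1 ≤ (P - 1) / (1 - δ) := by
    rw [le_div_iff₀ hβ]
    nlinarith
  have hv2 : (P - 1) / (1 - δ) ≤ P * (1 + 2 * δ) := by
    rw [div_le_iff₀ hβ]
    nlinarith [mul_pos hδ hβ, mul_nonneg (by linarith : (0:ℝ) ≤ P) (by nlinarith : (0:ℝ) ≤ δ * (1 - 2 * δ))]
  have hM1 : P - 1 ≤ M := by
    have : 0 ≤ (P - 1) / (1 - δ) := div_nonneg (by linarith) hβ.le
    have h5 : M = Real.exp ((1 - δ) ^ 2 / (2 * Z)) * ((P - 1) / (1 - δ)) := rfl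
    rw [h5]
    nlinarith
  have hZi : 0 < 1 / (Z : ℝ) := by positivity
  have hZi1 : 1 / (Z : ℝ) ≤ 1 := by
    rw [div_le_one (by linarith)]
    exact hZr
  have hM2 : M ≤ P + Y * (2 * δ + 2 / Z) := by
    have h5 : M = Real.exp ((1 - δ) ^ 2 / (2 * Z)) * ((P - 1) / (1 - δ)) := rfl
    have h6 : M ≤ (1 + 1 / Z) * (P * (1 + 2 * δ)) := by
      rw [h5]
      have : 0 ≤ (P - 1) / (1 - δ) := div_nonneg (by linarith) hβ.le
      exact mul_le_mul hw2 hv2 this (by positivity)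
    have h7 : (1 + 1 / (Z : ℝ)) * (P * (1 + 2 * δ)) = P + P * (2 * δ + 1 / Z + 2 * δ * (1 / Z)) := by
      ring
    have h8 : 2 * δ + 1 / (Z : ℝ) + 2 * δ * (1 / Z) ≤ 2 * δ + 2 / Z := by
      have : 2 / (Z : ℝ) = 1 / Z + 1 / Z := by ring
      rw [this]
      nlinarith
    have h9 : P * (2 * δ + 1 / Z + 2 * δ * (1 / Z)) ≤ Y * (2 * δ + 2 / Z) :=
      mul_le_mul hPle h8 (by positivity) hY0.le
    linarith
  constructor
  · have h1 : 1 - Real.exp (-(δ * t)) ≤ min 1 (δ * t) := by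
      apply le_min
      · linarith
      · have := Real.add_one_le_exp (-(δ * t))
        linarith
    have h2 : Y * (1 - Real.exp (-(δ * t))) ≤ Y * min 1 (δ * t) :=
      mul_le_mul_of_nonneg_left h1 hY0.le
    have h3 : Y * (1 - Real.exp (-(δ * t))) = Y - P := by rw [hPY]; ring
    linarith
  · have hx : 0 < δ * t := mul_pos hδ ht
    have h1 : min 1 (δ * t) / 2 ≤ 1 - Real.exp (-(δ * t)) := by
      have h2 : Real.exp (-(δ * t)) ≤ 1 / (1 + δ * t) := by
        rw [Real.exp_neg, ← one_div]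
        apply one_div_le_one_div_of_le (by linarith)
        linarith [Real.add_one_le_exp (δ * t)]
      have h3 : 1 - 1 / (1 + δ * t) = δ * t / (1 + δ * t) := by
        field_simp
        ring
      have h4 : min 1 (δ * t) / 2 ≤ δ * t / (1 + δ * t) := by
        rw [div_le_div_iff₀ (by norm_num) (by linarith)]
        rcases le_total 1 (δ * t) with h | h
        · rw [min_eq_left h]; linarith
        · rw [min_eq_right h]; nlinarith
      linarith
    have h2 : Y * (min 1 (δ * t) / 2) ≤ Y * (1 - Real.exp (-(δ * t))) :=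
      mul_le_mul_of_nonneg_left h1 hY0.le
    have h3 : Y * (1 - Real.exp (-(δ * t))) = Y - P := by rw [hPY]; ring
    have h4 : Y * (1 / Y) = 1 := by field_simp
    have h5 : Y * (min 1 (δ * t) / 2 - (2 * δ + 2 / Z + 1 / Y))
      = Y * (min 1 (δ * t) / 2) - Y * (2 * δ + 2 / Z) - Y * (1 / Y) := by ring
    rw [h5, h4]
    linarith

/-- the numbers -/
theorem num2 (κ C c1 t g m S P : ℝ) (Z d : ℕ) (hκ : 0 < κ) (hκ' : κ ≤ 1 / 300) (hC : 1 ≤ C)
    (hc : 0 < c1) (ht : 1 ≤ t)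
    (h1 : C / c1 * Real.exp (-(κ / 24 * t)) ≤ 1 / 100)
    (h2 : C / c1 * Real.exp (-(1 / 40 * t)) ≤ 1 / 100)
    (h3 : t ^ 2 ≤ 1 / 100 * Real.exp (t / 4)) (hd : 1 ≤ d)
    (hdt : (d : ℝ) ≤ Real.exp (κ / 40 * t)) (hZ1 : (Z : ℝ) ≤ Real.exp (κ * t)) (hZ0 : 1 ≤ Z)
    (hZ : κ * t / 2 ≤ Real.log Z) (hg : c1 * Real.exp (-(κ / 10 * t)) ≤ g)
    (hm1 : 2 / 5 * g * Real.exp t ≤ m) (hm2 : m ≤ g * Real.exp t)
    (hcore : |d.totient * S - m| ≤ 5 * Real.exp t * (1 / 100 * g) + d.totient *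
      (C * (Real.exp t * (Z : ℝ) ^ (-(1 / 3) : ℝ) + (Z : ℝ) ^ 5 * (Real.exp t) ^ (19 / 20 : ℝ))
        + Real.log d * Real.log ⌊Real.exp t⌋₊ / Real.log 2))
    (hlow : S - 2 * Real.exp (t / 2) * t ≤ P * t)
    (hup : P * t ≤ t * Real.exp (t / 2) + 2 * S) :
    g * Real.exp t / 4 ≤ d.totient * (P * t) ∧ d.totient * (P * t) ≤ 4 * (g * Real.exp t) := by
  have hφ : (d.totient : ℝ) ≤ Real.exp (κ / 40 * t) :=
    (Nat.cast_le.2 (Nat.totient_le d)).trans hdt
  have hφ0 : (0 : ℝ) ≤ d.totient := Nat.cast_nonneg _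
  set Y := Real.exp t with hY
  have hY0 : 0 < Y := Real.exp_pos t
  have hZr : (1 : ℝ) ≤ Z := by exact_mod_cast hZ0
  have hZpos : (0 : ℝ) < Z := by linarith
  have hg0 : 0 < g := lt_of_lt_of_le (by positivity) hg
  have hgY : 0 < g * Y := by positivity
  set w := Real.exp (-(κ / 10 * t)) with hw
  have hw0 : 0 < w := Real.exp_pos _
  have key : ∀ a : ℝ, C / c1 * a ≤ 1 / 100 → C * (a * w * Y) ≤ 1 / 100 * (g * Y) := by
    intro a ha
    calc C * (a * w * Y) = (C / c1 * a) * ((c1 * w) * Y) := by field_simp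
      _ ≤ 1 / 100 * ((c1 * w) * Y) := mul_le_mul_of_nonneg_right ha (by positivity)
      _ ≤ 1 / 100 * (g * Y) := by gcongr
  have k1 := key _ h1
  have k2 := key _ h2
  have k3 : Real.exp (-(1 / 40 * t)) * w * Y ≤ 1 / 100 * (g * Y) := by
    refine le_trans ?_ k2
    have : 0 < Real.exp (-(1 / 40 * t)) * w * Y := by positivity
    nlinarith
  have hκt : κ * t ≤ t / 300 := by nlinarith
  have hκ0 : 0 ≤ κ * t := by positivity
  -- first error term
  have a1 : d.totient * (C * (Y * (Z : ℝ) ^ (-(1 / 3) : ℝ))) ≤ 1 / 100 * (g * Y) := by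
    have e1 : (Z : ℝ) ^ (-(1 / 3) : ℝ) ≤ Real.exp (-(κ * t / 6)) := by
      rw [Real.rpow_def_of_pos hZpos]
      apply Real.exp_le_exp.2
      linarith
    refine le_trans ?_ k1
    calc d.totient * (C * (Y * (Z : ℝ) ^ (-(1 / 3) : ℝ)))
        ≤ Real.exp (κ / 40 * t) * (C * (Y * Real.exp (-(κ * t / 6)))) := by gcongr
      _ = C * (Real.exp (-(κ / 24 * t)) * w * Y) := by
          have : Real.exp (κ / 40 * t) * Real.exp (-(κ * t / 6)) = Real.exp (-(κ / 24 * t)) * w := by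
            rw [hw, ← Real.exp_add, ← Real.exp_add]; congr 1; ring
          rw [← this]; ring
  -- second error term
  have a2 : d.totient * (C * ((Z : ℝ) ^ 5 * Y ^ (19 / 20 : ℝ))) ≤ 1 / 100 * (g * Y) := by
    have e1 : Y ^ (19 / 20 : ℝ) = Real.exp (19 / 20 * t) := by
      rw [hY, ← Real.exp_mul]; congr 1; ring
    have e2 : (Z : ℝ) ^ 5 ≤ Real.exp (5 * (κ * t)) := by
      calc (Z : ℝ) ^ 5 ≤ (Real.exp (κ * t)) ^ 5 := by gcongr
        _ = Real.exp (5 * (κ * t)) := by rw [← Real.exp_nat_mul]; norm_num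
    refine le_trans ?_ k2
    calc d.totient * (C * ((Z : ℝ) ^ 5 * Y ^ (19 / 20 : ℝ)))
        ≤ Real.exp (κ / 40 * t) * (C * (Real.exp (5 * (κ * t)) * Real.exp (19 / 20 * t))) := by
          rw [e1]; gcongr
      _ = C * Real.exp (κ / 40 * t + 5 * (κ * t) + 19 / 20 * t) := by
          rw [Real.exp_add, Real.exp_add]; ring
      _ ≤ C * Real.exp (-(1 / 40 * t) + -(κ / 10 * t) + t) := by
          apply mul_le_mul_of_nonneg_left _ (by linarith)
          apply Real.exp_le_exp.2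
          nlinarith
      _ = C * (Real.exp (-(1 / 40 * t)) * w * Y) := by
          rw [Real.exp_add, Real.exp_add]
  have hE4 : 0 < Real.exp (t / 4) := Real.exp_pos _
  have htt : t ≤ t ^ 2 := by nlinarith
  -- third error term
  have a3 : d.totient * (Real.log d * Real.log ⌊Y⌋₊ / Real.log 2) ≤ 1 / 100 * (g * Y) := by
    have hlog2 : 1 / 2 ≤ Real.log 2 := by linarith [Real.log_two_gt_d9]
    have hdr : (1 : ℝ) ≤ d := by exact_mod_cast hd
    have e1 : Real.log d ≤ κ / 40 * t := by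
      rw [← Real.log_exp (κ / 40 * t)]
      exact Real.log_le_log (by linarith) hdt
    have e2 : Real.log ⌊Y⌋₊ ≤ t := by
      rw [← Real.log_exp t]
      have hY1 : 1 ≤ Y := Real.one_le_exp (by linarith)
      have : (1 : ℝ) ≤ ⌊Y⌋₊ := by exact_mod_cast Nat.le_floor (by simpa using hY1)
      exact Real.log_le_log (by linarith) (Nat.floor_le hY0.le)
    have e3 : Real.log d * Real.log ⌊Y⌋₊ / Real.log 2 ≤ t ^ 2 := by
      rw [div_le_iff₀ (by linarith)]
      have e4 : 0 ≤ Real.log ⌊Y⌋₊ := Real.log_natCast_nonneg _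
      have e5 : 0 ≤ Real.log d := Real.log_natCast_nonneg _
      calc Real.log d * Real.log ⌊Y⌋₊ ≤ (t / 2) * t := by
            apply mul_le_mul (by linarith) e2 e4 (by linarith)
        _ = t ^ 2 * (1 / 2) := by ring
        _ ≤ t ^ 2 * Real.log 2 := by gcongr
    calc d.totient * (Real.log d * Real.log ⌊Y⌋₊ / Real.log 2)
        ≤ Real.exp (κ / 40 * t) * (1 / 100 * Real.exp (t / 4)) :=
          mul_le_mul hφ (e3.trans h3) (by positivity) (Real.exp_pos _).le
      _ = 1 / 100 * Real.exp (κ / 40 * t + t / 4) := by rw [Real.exp_add]; ring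
      _ ≤ 1 / 100 * Real.exp (-(1 / 40 * t) + -(κ / 10 * t) + t) := by
          apply mul_le_mul_of_nonneg_left _ (by norm_num)
          apply Real.exp_le_exp.2
          nlinarith
      _ = 1 / 100 * (Real.exp (-(1 / 40 * t)) * w * Y) := by
          rw [Real.exp_add, Real.exp_add]
      _ ≤ 1 / 100 * (1 / 100 * (g * Y)) := by gcongr
      _ ≤ 1 / 100 * (g * Y) := by linarith
  -- prime powers
  have a4 : d.totient * (Real.exp (t / 2) * t) ≤ 1 / 100 * (g * Y) := by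
    calc d.totient * (Real.exp (t / 2) * t)
        ≤ Real.exp (κ / 40 * t) * (Real.exp (t / 2) * (1 / 100 * Real.exp (t / 4))) := by
          have : t ≤ 1 / 100 * Real.exp (t / 4) := htt.trans h3
          gcongr
      _ = 1 / 100 * Real.exp (κ / 40 * t + t / 2 + t / 4) := by
          rw [Real.exp_add, Real.exp_add]; ring
      _ ≤ 1 / 100 * Real.exp (-(1 / 40 * t) + -(κ / 10 * t) + t) := by
          apply mul_le_mul_of_nonneg_left _ (by norm_num)
          apply Real.exp_le_exp.2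
          nlinarith
      _ = 1 / 100 * (Real.exp (-(1 / 40 * t)) * w * Y) := by
          rw [Real.exp_add, Real.exp_add]
      _ ≤ 1 / 100 * (1 / 100 * (g * Y)) := by gcongr
      _ ≤ 1 / 100 * (g * Y) := by linarith
  have a6 : d.totient *
      (C * (Y * (Z : ℝ) ^ (-(1 / 3) : ℝ) + (Z : ℝ) ^ 5 * Y ^ (19 / 20 : ℝ))
        + Real.log d * Real.log ⌊Y⌋₊ / Real.log 2) =
      d.totient * (C * (Y * (Z : ℝ) ^ (-(1 / 3) : ℝ)))
      + d.totient * (C * ((Z : ℝ) ^ 5 * Y ^ (19 / 20 : ℝ)))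
      + d.totient * (Real.log d * Real.log ⌊Y⌋₊ / Real.log 2) := by ring
  rw [a6, abs_le] at hcore
  have b1 : d.totient * (S - 2 * Real.exp (t / 2) * t) ≤ d.totient * (P * t) :=
    mul_le_mul_of_nonneg_left hlow hφ0
  have b2 : d.totient * (P * t) ≤ d.totient * (t * Real.exp (t / 2) + 2 * S) :=
    mul_le_mul_of_nonneg_left hup hφ0
  constructor
  · have : d.totient * (S - 2 * Real.exp (t / 2) * t)
        = d.totient * S - 2 * (d.totient * (Real.exp (t / 2) * t)) := by ring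
    linarith [hcore.1]
  · have : d.totient * (t * Real.exp (t / 2) + 2 * S)
        = d.totient * (Real.exp (t / 2) * t) + 2 * (d.totient * S) := by ring
    linarith [hcore.2]

theorem stmt_Sux : Stmt_Sux := by
  obtain ⟨κ1, hκ1, Z0, hzs⟩ := main_zs (1 / 100) (by norm_num)
  obtain ⟨C, hC, hef⟩ := main_ef
  obtain ⟨κ, hκ, hκa, hκb⟩ : ∃ κ : ℝ, 0 < κ ∧ κ ≤ κ1 ∧ κ ≤ 1 / 300 :=
    ⟨min κ1 (1 / 300), lt_min hκ1 (by norm_num), min_le_left _ _, min_le_right _ _⟩
  obtain ⟨c0, hc0, hsieg⟩ := stmt_SIEG (1 / 10) (by norm_num)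
  obtain ⟨c1, hc1, hc1a, hc1b⟩ : ∃ c : ℝ, 0 < c ∧ c ≤ c0 ∧ c ≤ 1 :=
    ⟨min c0 1, lt_min hc0 (by norm_num), min_le_left _ _, min_le_right _ _⟩
  obtain ⟨c, hc, hca, hcb⟩ : ∃ c : ℝ, 0 < c ∧ c ≤ 1 / 4 ∧ c ≤ c1 :=
    ⟨min (1 / 4) c1, lt_min (by norm_num) hc1, min_le_left _ _, min_le_right _ _⟩
  obtain ⟨T, hT⟩ := large κ (C / c1) (κ / 80) (Z0 + ⌈C⌉₊ + 3) hκ (by positivity)
  refine ⟨κ / 40, c, 4, by positivity, by linarith, hc, by linarith, by norm_num, T,
    fun t ht => ?_⟩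
  obtain ⟨t1, t2, t3, t4, t5, t6, t7, t8⟩ := hT t ht
  have ht0 : 0 < t := by linarith
  set Y := Real.exp t with hY
  have hY1 : 1 ≤ Y := Real.one_le_exp (by linarith)
  have hY2 : 2 ≤ Y := by
    have := Real.add_one_le_exp t
    linarith
  set Z := ⌊Real.exp (κ * t)⌋₊ with hZd
  have hZM : Z0 + ⌈C⌉₊ + 3 ≤ Z := Nat.le_floor t3
  have hZ1 : (Z : ℝ) ≤ Real.exp (κ * t) := Nat.floor_le (Real.exp_pos _).le
  have hZ2 : Real.exp (κ * t) < Z + 1 := Nat.lt_floor_add_one _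
  have hZr : (3 : ℝ) ≤ Z := by exact_mod_cast (by omega : 3 ≤ Z)
  have hZC : C ≤ Z := (Nat.le_ceil C).trans (by exact_mod_cast (by omega : ⌈C⌉₊ ≤ Z))
  have hZhalf : Real.exp (κ * t / 2) ≤ Z := by
    have e2 : Real.exp (κ * t) = Real.exp (κ * t / 2) * Real.exp (κ * t / 2) := by
      rw [← Real.exp_add]; congr 1; ring
    have e3 : 2 ≤ Real.exp (κ * t / 2) := by
      have := Real.add_one_le_exp (κ * t / 2)
      linarith
    nlinarith
  have hZlog : κ * t / 2 ≤ Real.log Z := by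
    calc κ * t / 2 = Real.log (Real.exp (κ * t / 2)) := (Real.log_exp _).symm
      _ ≤ Real.log Z := Real.log_le_log (Real.exp_pos _) hZhalf
  have hYZ : Y ≤ Real.exp ((Real.log Z) ^ 2) := by
    apply Real.exp_le_exp.2
    have e1 : 16 ≤ t * κ ^ 2 := by
      rwa [div_le_iff₀ (by positivity)] at t2
    have e2 : (κ * t / 2) ^ 2 ≤ (Real.log Z) ^ 2 := by
      have : 0 ≤ κ * t / 2 := by positivity
      gcongr
    nlinarith
  have hZY : (Z : ℝ) ≤ Y ^ κ1 := by
    rw [hY, ← Real.exp_mul]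
    refine hZ1.trans (Real.exp_le_exp.2 ?_)
    rw [mul_comm]
    exact mul_le_mul_of_nonneg_left hκa ht0.le
  -- the main argument
  have main : ∀ (g : ℝ) (G R : Ch → ℝ), (∀ x, 0 ≤ G x) → c1 * Real.exp (-(κ / 10 * t)) ≤ g →
      ∑ x ∈ Fam Z, G x ≤ 1 / 100 * g → ∀ d : ℕ, 1 ≤ d →
      (d : ℝ) ≤ Real.exp (κ / 40 * t) → (∀ x ∈ Fam Z, x.1 ∣ d →
        ‖((zl x Z).map fun ρ => Complex.exp (ρ ^ 2 / (2 * Z)) *
              (((Y : ℂ) ^ ρ - (((1 : ℝ) : ℂ)) ^ ρ) / ρ)).sum - ((R x : ℝ) : ℂ)‖ ≤ 5 * Y * G x) →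
      2 / 5 * g * Y ≤ (Y - 1) - ∑ χ : DirichletCharacter ℂ d, R (pr χ) →
      (Y - 1) - ∑ χ : DirichletCharacter ℂ d, R (pr χ) ≤ g * Y →
      c * (g * (Y / (d.totient * t))) ≤ ((PR t d).card : ℝ) ∧
      ((PR t d).card : ℝ) ≤ 4 * (g * (Y / (d.totient * t))) := by
    intro g G R hG hg hGs d hd hdt hGx hm1 hm2
    have hdZ : d ≤ Z := by
      apply Nat.le_floor
      refine hdt.trans (Real.exp_le_exp.2 ?_)
      nlinarith
    have h1 := core2 d hd hdZ Y hY1 _
      (fun x hx => hef Z hZC x hx 1 Y le_rfl hY1 hYZ) G R hG _ hGs hGx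
    have hφ : (0 : ℝ) < d.totient := by exact_mod_cast Nat.totient_pos.2 hd
    obtain ⟨h4, h5⟩ := num2 κ C c1 t g _ _ ((PR t d).card) Z d hκ hκb hC hc1 t1 t4 t5 t6 hd hdt
      hZ1 (by omega) hZlog hg hm1 hm2 h1 (card_ge d t t1) (card_le d t t1)
    have hg0 : 0 < g := lt_of_lt_of_le (by positivity) hg
    constructor
    · refine (mul_le_mul_of_nonneg_right hca (by positivity)).trans ?_
      have : 1 / 4 * (g * (Y / (d.totient * t))) = (g * Y / 4) / (d.totient * t) := by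
        field_simp
      rw [this, div_le_iff₀ (by positivity)]
      linarith
    · have : 4 * (g * (Y / (d.totient * t))) = (4 * (g * Y)) / (d.totient * t) := by
        field_simp
      rw [this, le_div_iff₀ (by positivity)]
      linarith
  have hzl : ∀ x ∈ Fam Z, ∀ ρ ∈ zl x Z, 9 / 10 ≤ ρ.re ∧ ρ.re ≤ 1 := by
    intro x hx ρ hρ
    have h := (stmt_ZSPEC Z x (Fam_pos hx).1.ne').2.2 ρ hρ
    exact ⟨h.2.1, h.2.2.1.le⟩
  have hone : c1 * Real.exp (-(κ / 10 * t)) ≤ 1 := by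
    have : Real.exp (-(κ / 10 * t)) ≤ 1 := Real.exp_le_one_iff.2 (by
      have : 0 ≤ κ / 10 * t := by positivity
      linarith)
    have := Real.exp_pos (-(κ / 10 * t))
    nlinarith
  rcases hzs Z (by omega) Y hY1 hZY with h | ⟨y, δ, hE, hδ, h⟩
  · refine ⟨⌊Real.exp (κ / 40 * t)⌋₊ + 1, 1, by omega, one_pos, le_rfl, ?_, ?_⟩
    · rw [div_le_one (by positivity)]
      have : (1 : ℝ) ≤ ((⌊Real.exp (κ / 40 * t)⌋₊ + 1 : ℕ) : ℝ) := by
        exact_mod_cast (by omega : 1 ≤ ⌊Real.exp (κ / 40 * t)⌋₊ + 1)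
      linarith
    · intro d hd hdt
      constructor
      · intro _
        have h2 := main 1 (fun x => zs (zl x Z) Y) (fun _ => 0)
          (fun x => zs_nonneg _ _ (by linarith)) hone (by linarith) d hd hdt
          (fun x hx _ => by
            rw [Complex.ofReal_zero, sub_zero]
            exact zsum _ (hzl x hx) Z Y (by linarith) hY1)
          (by rw [sum_const_zero]; linarith) (by rw [sum_const_zero]; linarith)
        rw [one_mul] at h2
        exact h2
      · intro hdvd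
        have h2 := Nat.le_of_dvd hd hdvd
        have h3 : d ≤ ⌊Real.exp (κ / 40 * t)⌋₊ := Nat.le_floor hdt
        omega
  · have hy := Fam_pos hE.mem
    have hy1 : (1 : ℝ) ≤ y.1 := by exact_mod_cast hy.1
    have hyZ : (y.1 : ℝ) ≤ Z := by exact_mod_cast hy.2
    have hδ0 := hE.pos
    have hδ2 : δ ≤ 2 / (κ * t) := by
      refine hδ.trans ?_
      have : 0 < κ * t / 2 := by positivity
      calc 1 / Real.log Z ≤ 1 / (κ * t / 2) := one_div_le_one_div_of_le this hZlog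
        _ = 2 / (κ * t) := by field_simp
    have hδ3 : δ ≤ 1 / 40 := by
      refine hδ2.trans ?_
      rw [div_le_div_iff₀ (by positivity) (by norm_num)]
      linarith
    have hlogY : Real.log Y = t := by rw [hY, Real.log_exp]
    rw [hlogY] at h
    set f := min 1 (δ * t) with hf
    have hf0 : 0 < f := lt_min one_pos (by positivity)
    have hf1 : f ≤ 1 := min_le_left _ _
    have hfl : c1 * (y.1 : ℝ) ^ (-(1 / 10) : ℝ) ≤ f := by
      have e1 : (0 : ℝ) < (y.1 : ℝ) ^ (-(1 / 10) : ℝ) := Real.rpow_pos_of_pos (by linarith) _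
      have e2 : (y.1 : ℝ) ^ (-(1 / 10) : ℝ) ≤ 1 :=
        Real.rpow_le_one_of_one_le_of_nonpos hy1 (by norm_num)
      apply le_min
      · nlinarith
      · calc c1 * (y.1 : ℝ) ^ (-(1 / 10) : ℝ) ≤ c0 * (y.1 : ℝ) ^ (-(1 / 10) : ℝ) := by gcongr
          _ ≤ δ := hsieg Z y δ hE
          _ ≤ δ * t := le_mul_of_one_le_right hδ0.le t1
    have hfZ : c1 * (Z : ℝ) ^ (-(1 / 10) : ℝ) ≤ f := by
      refine le_trans ?_ hfl
      apply mul_le_mul_of_nonneg_left _ hc1.le
      exact Real.rpow_le_rpow_of_nonpos (by linarith) hyZ (by norm_num)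
    have hfe : c1 * Real.exp (-(κ / 10 * t)) ≤ f := by
      refine le_trans ?_ hfZ
      apply mul_le_mul_of_nonneg_left _ hc1.le
      have e1 : Real.exp (-(κ / 10 * t)) = (Real.exp (κ * t)) ^ (-(1 / 10) : ℝ) := by
        rw [← Real.exp_mul]; congr 1; ring
      rw [e1]
      exact Real.rpow_le_rpow_of_nonpos (by linarith) hZ1 (by norm_num)
    have hfy : c / y.1 ≤ f := by
      refine le_trans ?_ hfl
      rw [div_eq_mul_inv]
      have e1 : ((y.1 : ℝ))⁻¹ ≤ (y.1 : ℝ) ^ (-(1 / 10) : ℝ) := by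
        rw [← Real.rpow_neg_one]
        exact Real.rpow_le_rpow_of_exponent_le hy1 (by norm_num)
      exact mul_le_mul hcb e1 (by positivity) hc1.le
    refine ⟨y.1, f, hy.1, hf0, hf1, hfy, fun d hd hdt => ⟨fun hed => ?_, fun hed => ?_⟩⟩
    · have h2 := main 1 (fun x => zs (zx Z y δ x) Y) (fun _ => 0)
        (fun x => zs_nonneg _ _ (by linarith)) hone (by linarith) d hd hdt
        (fun x hx hxd => by
          rw [Complex.ofReal_zero, sub_zero]
          have hxy : x ≠ y := by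
            rintro rfl
            exact hed hxd
          unfold zx
          rw [if_neg hxy]
          exact zsum _ (hzl x hx) Z Y (by linarith) hY1)
        (by rw [sum_const_zero]; linarith) (by rw [sum_const_zero]; linarith)
      rw [one_mul] at h2
      exact h2
    · obtain ⟨m1, m2⟩ := exc_main Z t δ (by omega) ht0 hδ0 (by linarith)
      rw [← hY, ← hf] at m1 m2
      set M := Real.exp ((1 - δ) ^ 2 / (2 * Z)) * ((Y ^ (1 - δ) - 1) / (1 - δ)) with hM
      -- the small terms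
      have s1 : 2 * δ ≤ f / 20 := by
        rcases le_total 1 (δ * t) with hh | hh
        · rw [hf, min_eq_left hh]
          linarith
        · rw [hf, min_eq_right hh]
          have : 40 ≤ t := by nlinarith
          nlinarith
      have s2 : 2 / (Z : ℝ) + 1 / Y ≤ 3 / 100 * f := by
        have e1 : 1 / Y ≤ 1 / Z := by
          apply one_div_le_one_div_of_le (by linarith)
          refine hZ1.trans (Real.exp_le_exp.2 ?_)
          nlinarith
        have e2 : 1 / (Z : ℝ) ≤ Real.exp (-(κ * t / 2)) := by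
          rw [Real.exp_neg, ← one_div]
          exact one_div_le_one_div_of_le (Real.exp_pos _) hZhalf
        have e3 : Real.exp (-(κ * t / 2)) ≤
            Real.exp (-(κ / 24 * t)) * Real.exp (-(κ / 10 * t)) := by
          rw [← Real.exp_add]
          apply Real.exp_le_exp.2
          have : 0 < κ * t := by positivity
          linarith
        have e4 : Real.exp (-(κ / 24 * t)) * Real.exp (-(κ / 10 * t)) ≤ 1 / 100 * f := by
          have e5 : Real.exp (-(κ / 24 * t)) ≤ C * Real.exp (-(κ / 24 * t)) := by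
            have := Real.exp_pos (-(κ / 24 * t))
            nlinarith
          calc Real.exp (-(κ / 24 * t)) * Real.exp (-(κ / 10 * t))
              ≤ C * Real.exp (-(κ / 24 * t)) * Real.exp (-(κ / 10 * t)) := by gcongr
            _ = (C / c1 * Real.exp (-(κ / 24 * t))) * (c1 * Real.exp (-(κ / 10 * t))) := by
                field_simp
            _ ≤ 1 / 100 * f := by gcongr
        have e6 : 2 / (Z : ℝ) = 2 * (1 / Z) := by ring
        rw [e6]
        linarith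
      have hsum := sum_exc hE.mem hd hed M
      refine main f (fun x => zs (zx Z y δ x) Y) (fun x => if x = y then M else 0)
        (fun x => zs_nonneg _ _ (by linarith)) hfe h d hd hdt (fun x hx _ => ?_) ?_ ?_
      · by_cases hxy : x = y
        · rw [if_pos hxy]
          subst hxy
          have hmem := exc_mem_zl stmt_ZSPEC hE (by linarith)
          have hes := erase_sum (zl x Z) ((1 - δ : ℝ) : ℂ) hmem
            (fun ρ => Complex.exp (ρ ^ 2 / (2 * Z)) * (((Y : ℂ) ^ ρ - (((1 : ℝ) : ℂ)) ^ ρ) / ρ))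
          rw [hes]
          have hMc : Complex.exp ((((1 - δ : ℝ)) : ℂ) ^ 2 / (2 * Z)) *
              (((Y : ℂ) ^ (((1 - δ : ℝ)) : ℂ) - (((1 : ℝ) : ℂ)) ^ (((1 - δ : ℝ)) : ℂ)) /
                (((1 - δ : ℝ)) : ℂ)) = ((M : ℝ) : ℂ) := by
            rw [← Complex.ofReal_cpow (by linarith : (0 : ℝ) ≤ Y),
              ← Complex.ofReal_cpow zero_le_one, Real.one_rpow, hM]
            push_cast
            ring
          rw [hMc, add_sub_cancel_left]
          unfold zx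
          rw [if_pos rfl]
          exact zsum _ (fun ρ hρ => hzl x hx ρ (List.mem_of_mem_erase hρ)) Z Y (by linarith) hY1
        · rw [if_neg hxy, Complex.ofReal_zero, sub_zero]
          unfold zx
          rw [if_neg hxy]
          exact zsum _ (hzl x hx) Z Y (by linarith) hY1
      · rw [hsum]
        refine le_trans ?_ m2
        have : 2 / 5 * f ≤ f / 2 - (2 * δ + 2 / Z + 1 / Y) := by linarith
        calc 2 / 5 * f * Y = Y * (2 / 5 * f) := by ring
          _ ≤ _ := mul_le_mul_of_nonneg_left this (by linarith)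
      · rw [hsum]
        linarith

end Pool.Agent.Work.MP_2738db_nt_X.helper79
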